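import Pool.Agent.Run7.h994.MC.RSg

/-!
# Bounded clusters of primes at every relative position between consecutive odd squares

For every `k ≥ 1` and `ε > 0` there are `D` and `c > 0` such that for all large `M`, ALL relative positions `β ∈ [0, 1]` and all `A` with
`M^(1/2 + ε) ≤ A ≤ M`: for at least `c M` of the `m ≤ M` there are at least `c A / (log M)^D` primes `p` with
`(2m - 1 + 2β)² < p`, `p + D ≤ (2m - 1 + 2β)² + A` such that there are at least `k` primes in `[p, p + D]`. Here
`(2m - 1 + 2β)²` moves from `(2m - 1)²` to `(2m + 1)²`.

Method. The Maynard-Tao theorem (in the form with the right order of magnitude, project HR of the starting tree) in an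
arbitrary set `T` of relative density `κ → 0` in which the integers and the primes are equidistributed in residue classes up to a
small power level; here `T` is the set of the integers `v` for which the fractional part of `√v / 2 - α` is less than `κ`: exponential
sums over primes in residue classes with the phases `h √p / 2` on average over `h` (Vaughan's identity, double large sieve, van
der Corput) with a power saving. The clusters found consist of integers free of small prime factors; the upper bound sieve shows that no
`m` has too many of them.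
-/

set_option autoImplicit false

namespace Pool.Agent.Results.MP_3a3367_nt.ClustersAtEveryPosition

open Finset

open Classical in
/-- the primes `p` with `x < p`, `p + D ≤ x + A` such that there are at least `k` primes in `[p, p + D]` -/
noncomputable def clusters (k D : ℕ) (A x : ℝ) : Finset ℕ :=
  (Icc 1 ⌊x + A⌋₊).filter (fun p : ℕ => x < p ∧ (p : ℝ) + D ≤ x + A ∧ p.Prime ∧ k ≤ #((Icc p (p + D)).filter Nat.Prime))

theorem result (k : ℕ) (hk : 1 ≤ k) (ε : ℝ) (hε : 0 < ε) : ∃ (D : ℕ) (c : ℝ), 0 < c ∧ ∃ M₀ : ℕ, ∀ M : ℕ, M₀ ≤ M →
    ∀ β : ℝ, 0 ≤ β → β ≤ 1 → ∀ A : ℕ, (M : ℝ) ^ (1 / 2 + ε) ≤ A → A ≤ M →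
      c * M ≤ (#((Icc 1 M).filter (fun m : ℕ => c * (A / Real.log M ^ D) ≤
        (#(clusters k D A ((2 * (m : ℝ) - 1 + 2 * β) ^ 2)) : ℝ))) : ℝ) :=
  Run7.h994.MC.odd_clusters k hk ε hε

end Pool.Agent.Results.MP_3a3367_nt.ClustersAtEveryPosition
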