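import Pool.Agent.Run7.h946.SQ.Use

/-!
# Primes between consecutive odd squares, along lacunary sequences

`1, α_1, …, α_r` are linearly independent over `ℚ` and `a_j ≥ exp (j^κ)`, `κ > 0` (for example `a_j = 10^j` or `a_j = j!`). For
almost every real `β` and all large `j`, for ALL the integers `k` near `β a_j` (for example for the prefixes `⌊β 10^j⌋` of the
decimal expansion of `β`) the interval `((2k-1)², (2k+1)²)` contains primes `p` with `α p` in every box modulo one of volume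
at least `1 / (m + 1)`, and the primes in it are equidistributed in all the boxes and in all the subintervals of length at
least `2k / (log 2k)^W`.
-/

set_option autoImplicit false
set_option maxHeartbeats 4000000

namespace Pool.Agent.Results.MP_3a3367_nt.LacunarySequences

open Finset Filter Topology MeasureTheory
open Run7.h946.SQ (Bohr Independent cnt Good)

/-- `I_k` contains a prime `p` with `α p` in the box, for every box modulo one of volume at least `δ`. -/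
def PrimesInBoxes {r : ℕ} (α : Fin r → ℝ) (δ : ℝ) (k : ℕ) : Prop :=
  ∀ u v : Fin r → ℝ, (∀ j, u j ≤ v j) → (∀ j, v j ≤ u j + 1) → δ ≤ ∏ j, (v j - u j) →
    ∃ p, (2 * k - 1) ^ 2 < p ∧ p < (2 * k + 1) ^ 2 ∧ Bohr α u v p

/-- In every subinterval `(s, t]` of `[(2k-1)², (2k+1)²]` of length at least `2k / (log 2k)^W` the number of the primes of
every Bohr set of `α` is the expected number, up to the relative error `ε`. -/
def Equidistributed {r : ℕ} (α : Fin r → ℝ) (W : ℕ) (ε : ℝ) (k : ℕ) : Prop :=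
  ∀ s t : ℕ, (2 * k - 1) ^ 2 ≤ s → s ≤ t → t ≤ (2 * k + 1) ^ 2 →
    ((2 * k : ℕ) : ℝ) / Real.log ((2 * k : ℕ) : ℝ) ^ W ≤ (t : ℝ) - s →
    ∀ u v : Fin r → ℝ, (∀ j, u j ≤ v j) → (∀ j, v j ≤ u j + 1) →
      |(cnt (Bohr α u v) s t : ℝ) - (∏ j, (v j - u j)) * (((t : ℝ) - s) / (2 * Real.log ((2 * k : ℕ) : ℝ)))| ≤
        ε * (((t : ℝ) - s) / (2 * Real.log ((2 * k : ℕ) : ℝ)))

theorem of_good {r : ℕ} {α : Fin r → ℝ} {W : ℕ} {ε δ : ℝ} {k : ℕ} (hk : 2 ≤ k) (h : Good α W ε (2 * k)) (hε : ε < δ) :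
    PrimesInBoxes α δ k ∧ Equidistributed α W ε k := by
  constructor
  · intro u v hu hv hvol
    have h0 := h.mono_W (Nat.zero_le W) (by omega)
    have e : (2 * k - 1) ^ 2 + 8 * k = (2 * k + 1) ^ 2 := by
      obtain ⟨l, rfl⟩ : ∃ l, k = l + 1 := ⟨k - 1, by omega⟩
      have : 2 * (l + 1) - 1 = 2 * l + 1 := by omega
      rw [this]
      ring
    obtain ⟨p, h1, h2, h3⟩ := h0.exists (by omega) (s := (2 * k - 1) ^ 2) (t := (2 * k + 1) ^ 2) le_rfl (by omega)
      (Nat.pow_le_pow_left (by omega) 2) (by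
        rw [pow_zero, div_one, ← e]
        push_cast
        have : (0 : ℝ) ≤ k := Nat.cast_nonneg _
        linarith) hu hv hε hvol
    refine ⟨p, h1, lt_of_le_of_ne h2 ?_, h3⟩
    rintro rfl
    have h5 := h3.1
    rw [sq] at h5
    exact Nat.not_prime_mul (by omega) (by omega) h5
  · intro s t a1 a2 a3 a4 u v a5 a6
    exact h s t a1 a2 (a3.trans (Nat.pow_le_pow_left (by omega) 2)) a4 u v a5 a6

/-- **Theorem.** -/
theorem result {r : ℕ} (α : Fin r → ℝ) (hα : Independent α) (κ : ℝ) (hκ : 0 < κ) (a : ℕ → ℝ)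
    (ha : ∀ j : ℕ, Real.exp ((j : ℝ) ^ κ) ≤ a j) :
    ∀ᵐ β : ℝ, ∀ V W m : ℕ, ∀ᶠ j in atTop, ∀ k : ℕ, 2 ≤ k → |(k : ℝ) - β * a j| ≤ Real.log (a j) ^ V →
      PrimesInBoxes α (1 / ((m : ℝ) + 1)) k ∧ Equidistributed α W (1 / ((m : ℝ) + 1)) k := by
  rw [ae_all_iff]
  intro V
  rw [ae_all_iff]
  intro W
  rw [ae_all_iff]
  intro m
  have h1 := (Run7.h946.SQ.isThin_of_thin (Run7.h946.SQ.thin_good hα W (ε := 1 / ((m : ℝ) + 1) / 2) (by positivity))).double
  filter_upwards [Run7.h946.SQ.lacunary h1 hκ ha V] with β hβ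
  filter_upwards [hβ] with j hj k hk hnear
  have h2 := hj k (by omega) hnear
  simp only [Set.mem_setOf_eq, not_not] at h2
  have h3 : (0 : ℝ) < 1 / ((m : ℝ) + 1) := by positivity
  obtain ⟨h4, h5⟩ := of_good hk h2 (show 1 / ((m : ℝ) + 1) / 2 < 1 / ((m : ℝ) + 1) by linarith)
  refine ⟨h4, ?_⟩
  intro s t a1 a2 a3 a4 u v a5 a6
  refine (h5 s t a1 a2 a3 a4 u v a5 a6).trans (mul_le_mul_of_nonneg_right (by linarith) ?_)
  have h7 : (s : ℝ) ≤ t := by exact_mod_cast a2
  have h8 : 0 ≤ Real.log ((2 * k : ℕ) : ℝ) := Real.log_natCast_nonneg _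
  have h9 : 0 ≤ (t : ℝ) - s := by linarith
  positivity

end Pool.Agent.Results.MP_3a3367_nt.LacunarySequences
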