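import Mathlib
import Pool.Agent.Run7.h337.MK.TreeU

/-!
# Trees of primes between almost all pairs of consecutive odd squares
-/

set_option autoImplicit false

namespace Pool.Agent.Results.MP_3a3367_nt.PrimeTreesBetweenOddSquares

open Finset
open Run7.h337.MK (PrimeLaw AllTrees)

theorem result (r T U : ℕ) (ε : ℝ) (hε : 0 < ε) (hε1 : ε ≤ 1) :
    ∃ V C D X₀ : ℕ, ∀ X : ℕ, X₀ ≤ X →
    ∃ E : Finset ℕ, (E.card : ℝ) ≤ X / Real.log X ^ U ∧ ∀ k : ℕ, 1 ≤ k → 2 * k + 1 ≤ X → k ∉ E →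
    ∀ u v : ℕ, (2 * k - 1) ^ 2 ≤ u → v ≤ (2 * k + 1) ^ 2 → (u : ℝ) + X / Real.log X ^ T ≤ v →
    PrimeLaw 1 X ε u v ∧ AllTrees 1 r T V C D X ε u v := by
  classical
  obtain ⟨V, C, D, X₀, h⟩ := Run7.h337.MK.tree_unc 1 (le_refl 1) r (T + 1) U ε hε hε1
  refine ⟨V, C, D, X₀, fun X hX => ?_⟩
  obtain ⟨hL, E, hE, h2⟩ := h X hX
  refine ⟨E.image fun n => (n + 1) / 2, ?_, fun k hk hkX hkE u v hu hv huv => ?_⟩
  · refine le_trans ?_ hE
    exact_mod_cast card_image_le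
  · have hL1 : (1 : ℝ) ≤ Real.log X := by linarith
    have hpow : Real.log X ^ 1 ≤ Real.log X ^ (T + 1) := pow_le_pow_right₀ hL1 (by omega)
    rw [pow_one] at hpow
    obtain ⟨h3, h4⟩ := h2 (2 * k - 1) (2 * k + 1) (by omega) (by omega) (by omega)
      (by
        have h5 : ((2 * k + 1 : ℕ) : ℝ) = ((2 * k - 1 : ℕ) : ℝ) + 2 := by
          have : 2 * k + 1 = (2 * k - 1) + 2 := by omega
          rw [this]
          push_cast
          norm_num
        rw [h5]
        linarith)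
      (by
        intro n hn1 hn2 hn3
        apply hkE
        rw [mem_image]
        exact ⟨n, hn3, by omega⟩)
    have hX0 : (0 : ℝ) ≤ X := Nat.cast_nonneg _
    have h6 : (X : ℝ) ^ 1 / Real.log X ^ (T + 1) ≤ X / Real.log X ^ T := by
      rw [pow_one]
      exact div_le_div_of_nonneg_left hX0 (by positivity) (pow_le_pow_right₀ hL1 (by omega))
    obtain ⟨h7, h8⟩ := h4 u v hu hv (by linarith)
    refine ⟨h7, ?_⟩
    have h9 : (0 : ℝ) ≤ X / Real.log X ^ T := by positivity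
    exact Run7.h337.MK.allTrees_mono (Nat.le_succ T) hL1 (by linarith) h8

end Pool.Agent.Results.MP_3a3367_nt.PrimeTreesBetweenOddSquares
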