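import Mathlib
import Pool.Agent.Run7.h794.MK.All
import Pool.Agent.Run7.h591.EG.Fin2

set_option autoImplicit false
set_option maxHeartbeats 4000000

namespace Pool.Agent.Results.MP_3a3367_nt.SweepOut

open Finset MeasureTheory
open Pool.Agent.Run7.h591.EG

/-- the points which are in `A` at some prime time `p` strictly between `(2k - 1)^2` and `(2k + 1)^2` -/
def visit {X : Type*} (T : X → X) (A : Set X) (k : ℕ) : Set X :=
  {x | ∃ p : ℕ, p.Prime ∧ (2 * k - 1) ^ 2 < p ∧ p < (2 * k + 1) ^ 2 ∧ T^[p] x ∈ A}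

theorem result {X : Type*} [MeasurableSpace X] (μ : Measure X) [IsProbabilityMeasure μ] (T : X → X)
    (hT : MeasurePreserving T μ μ) (hE : ∀ r : ℕ, 1 ≤ r → Ergodic T^[r] μ) (A : Set X) (hA : MeasurableSet A)
    (hA0 : μ A ≠ 0) (ε : ℝ) (hε : 0 < ε) :
    ∀ C : ℕ, ∃ K₀ : ℕ, ∀ K : ℕ, K₀ ≤ K → ∃ Bad : Finset ℕ, Bad ⊆ Ioc K (2 * K) ∧
      (Bad.card : ℝ) ≤ K / Real.log K ^ C ∧ ∀ k ∈ Ioc K (2 * K), k ∉ Bad → 1 - ε < μ.real (visit T A k) := by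
  have hA1 : 0 < μ.real A := by
    rw [measureReal_def]
    exact ENNReal.toReal_pos hA0 (measure_ne_top μ A)
  have h1 := sweep Pool.Agent.Run7.h794.MK.all_all hT hE hA hA1 ε hε
  obtain ⟨n₀, hn₀⟩ := full
  have h3 := AW_at' h1 (fun n => (n - 1) ^ 2) (fun n => (n + 1) ^ 2) 1 n₀ hn₀
    (fun n => 1 - ε < μ.real (⋃ p ∈ pr ((n - 1) ^ 2) ((n + 1) ^ 2), T^[p] ⁻¹' A)) (fun N n hn h => h)
  refine alm_mono _ _ 0 ?_ (ev_half _ h3)
  intro k _ h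
  have : (⋃ p ∈ pr ((2 * k - 1) ^ 2) ((2 * k + 1) ^ 2), T^[p] ⁻¹' A) = visit T A k := by
    ext x
    simp only [visit, pr, Set.mem_iUnion, mem_filter, mem_Ioc, Set.mem_preimage, exists_prop, Set.mem_ofPred_eq]
    constructor
    · rintro ⟨p, ⟨⟨e1, e2⟩, e3⟩, e4⟩
      refine ⟨p, e3, e1, lt_of_le_of_ne e2 ?_, e4⟩
      rintro rfl
      exact sq_not_prime _ e3
    · rintro ⟨p, e3, e1, e2, e4⟩
      exact ⟨p, ⟨⟨e1, e2.le⟩, e3⟩, e4⟩
  rw [this] at h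
  exact h

end Pool.Agent.Results.MP_3a3367_nt.SweepOut
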